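import Mathlib

/-!
Contrapositive symmetries of fuzzy implications: (CP) and (L-CP) with respect to the same fuzzy
negation always imply (R-CP).  Hence there is no fuzzy implication satisfying exactly (CP) and
(L-CP).
-/

namespace Pool.Agent.Results.MP_478a43_lc.CPandLCPgiveRCP

/-- (CP) and (L-CP) give `I x y = I (N (N x)) y`, and then (R-CP); monotonicity is not needed. -/
theorem rcp_of_cp_lcp {α β : Type*} (I : α → α → β) (N : α → α)
    (cp : ∀ x y, I x y = I (N y) (N x)) (lcp : ∀ x y, I (N x) y = I (N y) x) :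
    ∀ x y, I x (N y) = I y (N x) := by
  have h : ∀ x y, I x y = I (N (N x)) y := by
    intro x y
    rw [cp x y, lcp y (N x)]
  intro x y
  rw [cp x (N y), ← h y (N x)]

/-- There are no fuzzy implication `I` and fuzzy negation `N` such that `I` satisfies (CP) and
(L-CP) with respect to `N` but not (R-CP). -/
theorem result :
    ¬ ∃ (I : unitInterval → unitInterval → unitInterval) (N : unitInterval → unitInterval),
      (Antitone N ∧ N 0 = 1 ∧ N 1 = 0) ∧
      ((∀ y, Antitone fun x => I x y) ∧ (∀ x, Monotone fun y => I x y) ∧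
        I 0 0 = 1 ∧ I 1 1 = 1 ∧ I 1 0 = 0) ∧
      (∀ x y, I x y = I (N y) (N x)) ∧
      (∀ x y, I (N x) y = I (N y) x) ∧
      ¬ (∀ x y, I x (N y) = I y (N x)) := by
  rintro ⟨I, N, -, -, cp, lcp, h⟩
  exact h (rcp_of_cp_lcp I N cp lcp)

end Pool.Agent.Results.MP_478a43_lc.CPandLCPgiveRCP
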